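import Pool.Agent.Helper99.Pak.ExcSmall
import Pool.Agent.Helper98.Pak.Conj

set_option autoImplicit false

/-! Galois stable subfields: orbifold and counting. -/

namespace Pool.Agent.Helper63.Pak

open IntermediateField

variable {Ω : Type} [Field Ω] [Algebra ℂ Ω]

theorem mapF_eq_of_fixes {g : Ω ≃ₐ[ℂ] Ω} {L : IntermediateField ℂ Ω} (hg : Fixes g L) :
    mapF g L = L := by
  ext z
  rw [mem_mapF]
  constructor
  · intro h
    have h1 := hg _ h
    rw [g.apply_symm_apply] at h1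
    rw [h1]; exact h
  · intro h
    have h1 := hg z h
    have h2 : g.symm z = z := by
      conv_lhs => rw [← h1]
      exact g.symm_apply_apply z
    rw [h2]; exact h

theorem Fixes.symm {g : Ω ≃ₐ[ℂ] Ω} {L : IntermediateField ℂ Ω} (hg : Fixes g L) :
    Fixes g.symm L := by
  intro z hz
  have h1 := hg z hz
  conv_lhs => rw [← h1]
  exact g.symm_apply_apply z

variable [CurveUniverse Ω]
variable {A B : RatFunc ℂ} {x x' y : ℤ → Ω} {R : IntermediateField ℂ Ω}

section GSF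

variable {N : ℤ} {K : IntermediateField ℂ Ω}

/-- the orbifold of `K / ℂ(x N)` -/
noncomputable def orb (x : ℤ → Ω) (N : ℤ) (K : IntermediateField ℂ Ω) (q : OnePoint ℂ) : ℕ :=
  open Classical in
  if h : ∃ v : Pt Ω, val v (x N) = q then e h.choose (Cx x N) K else 1

omit [CurveUniverse Ω] in
theorem GS.ff (hx : Tower A x) (h : GS x R N K) : FF K := by
  refine ⟨h.fg, fun hK => ?_⟩
  have h1 : x N ∈ K := h.le (mem_adjoin_simple_self ℂ (x N))
  rw [hK, IntermediateField.mem_bot] at h1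
  obtain ⟨c, hc⟩ := h1
  have h2 := hx.trans N
  rw [← hc] at h2
  exact h2 (isAlgebraic_algebraMap c)

omit [CurveUniverse Ω] in
theorem GS.mapF_eq (h : GS x R N K) {g : Ω ≃ₐ[ℂ] Ω} (hg : Fixes g (Cx x N)) : mapF g K = K := by
  ext z
  rw [mem_mapF]
  constructor
  · intro hz
    have h1 := h.gal g hg _ hz
    rwa [g.apply_symm_apply] at h1
  · intro hz
    exact h.gal g.symm hg.symm _ hz

theorem GS.e_eq_of_val_eq (hPT : PTFacts Ω) (hx : Tower A x) (h : GS x R N K) {v w : Pt Ω}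
    (hvw : val v (x N) = val w (x N)) : e v (Cx x N) K = e w (Cx x N) K := by
  have h1 := hPT.sameOn_adjoin (hx.trans N) hvw
  obtain ⟨g, hg, rfl⟩ := hPT.transitive (ff_adjoin (hx.trans N)) h1
  have h2 := e_smul g v (Cx x N) K
  rw [mapF_eq_of_fixes hg, h.mapF_eq hg] at h2
  exact h2.symm

theorem GS.e_eq_orb (hPT : PTFacts Ω) (hx : Tower A x) (h : GS x R N K) (v : Pt Ω) :
    e v (Cx x N) K = orb x N K (val v (x N)) := by
  unfold orb
  have h1 : ∃ w : Pt Ω, val w (x N) = val v (x N) := ⟨v, rfl⟩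
  rw [dif_pos h1]
  exact h.e_eq_of_val_eq hPT hx h1.choose_spec.symm

theorem GS.orb_pos (hPT : PTFacts Ω) (hx : Tower A x) (h : GS x R N K) (q : OnePoint ℂ) :
    0 < orb x N K q := by
  obtain ⟨v, rfl⟩ := hPT.exists_val (hx.trans N) q
  rw [← h.e_eq_orb hPT hx v]
  exact hPT.e_pos v (ff_adjoin (hx.trans N)) (h.ff hx) h.le

/-- the number of places above `q` times `orb q` is the degree -/
theorem GS.ncard_mul_orb (hPT : PTFacts Ω) (hx : Tower A x) (h : GS x R N K) (v : Pt Ω) :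
    {P : Pl K | SameOn (Cx x N) P.pt v}.ncard * orb x N K (val v (x N))
      = (Cx x N).relfinrank K := by
  rw [← hPT.sum_e v (ff_adjoin (hx.trans N)) (h.ff hx) h.le]
  have h1 : ∀ P ∈ {P : Pl K | SameOn (Cx x N) P.pt v}, e P.pt (Cx x N) K
      = orb x N K (val v (x N)) := by
    intro P hP
    rw [h.e_eq_orb hPT hx P.pt, hPT.val_eq_of_sameOn hP (mem_adjoin_simple_self ℂ (x N))]
  rw [finsum_mem_congr rfl h1]
  rw [finsum_mem_eq_finite_toFinset_sum _
    (hPT.finite_over v (ff_adjoin (hx.trans N)) (h.ff hx) h.le), Finset.sum_const, smul_eq_mul,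
    Set.ncard_eq_toFinset_card _ (hPT.finite_over v (ff_adjoin (hx.trans N)) (h.ff hx) h.le)]

theorem GS.orb_dvd (hPT : PTFacts Ω) (hx : Tower A x) (h : GS x R N K) (q : OnePoint ℂ) :
    orb x N K q ∣ (Cx x N).relfinrank K := by
  obtain ⟨v, rfl⟩ := hPT.exists_val (hx.trans N) q
  exact ⟨_, (h.ncard_mul_orb hPT hx v).symm.trans (mul_comm _ _)⟩

theorem GS.orb_finite (hPT : PTFacts Ω) (hx : Tower A x) (h : GS x R N K) :
    {q | orb x N K q ≠ 1}.Finite := by
  refine ((hPT.finite_ram (ff_adjoin (hx.trans N)) (h.ff hx) h.le).image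
    (fun P => val P.pt (x N))).subset fun q hq => ?_
  obtain ⟨v, rfl⟩ := hPT.exists_val (hx.trans N) q
  have h1 : SameOn K (Pl.mk K v).pt v := Pl.sameOn_pt_mk K v
  refine ⟨Pl.mk K v, ?_, ?_⟩
  · change e (Pl.mk K v).pt (Cx x N) K ≠ 1
    rw [hPT.e_congr (ff_adjoin (hx.trans N)) (h.ff hx) h.le h1, h.e_eq_orb hPT hx v]
    exact hq
  · exact hPT.val_eq_of_sameOn h1 (h.le (mem_adjoin_simple_self ℂ (x N)))

theorem GS.sum_chi (hPT : PTFacts Ω) (hx : Tower A x) (h : GS x R N K) :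
    (Ram (Cx x N) K : ℚ) = (Cx x N).relfinrank K *
      ∑ q ∈ (h.orb_finite hPT hx).toFinset, (1 - 1 / (orb x N K q : ℚ)) := by
  classical
  have hff := ff_adjoin (hx.trans N)
  set T := (hPT.finite_ram hff (h.ff hx) h.le).toFinset with hT
  set S := (h.orb_finite hPT hx).toFinset with hS
  have hTm : ∀ P, P ∈ T ↔ e P.pt (Cx x N) K ≠ 1 := fun P => by
    rw [hT, Set.Finite.mem_toFinset]; exact Iff.rfl
  have hSm : ∀ q, q ∈ S ↔ orb x N K q ≠ 1 := fun q => by
    rw [hS, Set.Finite.mem_toFinset]; exact Iff.rfl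
  have hRam : (Ram (Cx x N) K : ℚ) = ∑ P ∈ T, ((e P.pt (Cx x N) K : ℚ) - 1) := by
    unfold Ram
    rw [finsum_eq_sum_of_support_subset (s := T)]
    · rw [Nat.cast_sum]
      refine Finset.sum_congr rfl fun P _ => ?_
      rw [Nat.cast_sub, Nat.cast_one]
      exact hPT.e_pos _ hff (h.ff hx) h.le
    · intro P hP
      rw [Function.mem_support] at hP
      rw [Finset.mem_coe, hTm]
      intro h1
      rw [h1] at hP
      exact hP rfl
  have hfib : ∑ P ∈ T, ((e P.pt (Cx x N) K : ℚ) - 1)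
      = ∑ q ∈ S, ∑ P ∈ T with val P.pt (x N) = q, ((e P.pt (Cx x N) K : ℚ) - 1) := by
    refine (Finset.sum_fiberwise_of_maps_to (fun P hP => ?_) _).symm
    rw [hSm, ← h.e_eq_orb hPT hx]
    exact (hTm P).1 hP
  have hin : ∀ q ∈ S, ∑ P ∈ T with val P.pt (x N) = q, ((e P.pt (Cx x N) K : ℚ) - 1)
      = (Cx x N).relfinrank K * (1 - 1 / (orb x N K q : ℚ)) := by
    intro q hq
    rw [hSm] at hq
    obtain ⟨v, rfl⟩ := hPT.exists_val (hx.trans N) q
    have hset : (({P ∈ T | val P.pt (x N) = val v (x N)} : Finset (Pl K)) : Set (Pl K))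
        = {P : Pl K | SameOn (Cx x N) P.pt v} := by
      ext P
      rw [Finset.mem_coe, Finset.mem_filter, hTm]
      constructor
      · rintro ⟨_, h2⟩
        exact hPT.sameOn_adjoin (hx.trans N) h2
      · intro h2
        have h3 := hPT.val_eq_of_sameOn h2 (mem_adjoin_simple_self ℂ (x N))
        refine ⟨?_, h3⟩
        rw [h.e_eq_orb hPT hx P.pt, h3]
        exact hq
    have hcard := h.ncard_mul_orb hPT hx v
    rw [← hset, Set.ncard_coe_finset] at hcard
    have hconst : ∀ P ∈ ({P ∈ T | val P.pt (x N) = val v (x N)} : Finset (Pl K)),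
        ((e P.pt (Cx x N) K : ℚ) - 1) = (orb x N K (val v (x N)) : ℚ) - 1 := by
      intro P hP
      rw [Finset.mem_filter] at hP
      rw [h.e_eq_orb hPT hx P.pt, hP.2]
    rw [Finset.sum_congr rfl hconst, Finset.sum_const, nsmul_eq_mul, ← hcard]
    have h0 : (orb x N K (val v (x N)) : ℚ) ≠ 0 := by
      exact_mod_cast (h.orb_pos hPT hx _).ne'
    push_cast
    field_simp
  rw [hRam, hfib, Finset.sum_congr rfl hin, Finset.mul_sum]

theorem GS.finsum_orb (hPT : PTFacts Ω) (hx : Tower A x) (h : GS x R N K) :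
    ∑ᶠ q, (1 - 1 / (orb x N K q : ℚ))
      = ∑ q ∈ (h.orb_finite hPT hx).toFinset, (1 - 1 / (orb x N K q : ℚ)) := by
  refine finsum_eq_sum_of_support_subset _ fun q hq => ?_
  rw [Function.mem_support] at hq
  rw [Finset.mem_coe, Set.Finite.mem_toFinset]
  intro h1
  rw [h1] at hq
  norm_num at hq

/-- `χ(K) = |G| χ(orb)` -/
theorem GS.chi_eq (hPT : PTFacts Ω) (hx : Tower A x) (h : GS x R N K) :
    (chi K : ℚ) = (Cx x N).relfinrank K * (2 - ∑ᶠ q, (1 - 1 / (orb x N K q : ℚ))) := by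
  have hff := ff_adjoin (hx.trans N)
  have h1 := hPT.chi_eq hff (h.ff hx) h.le
  rw [hPT.chi_adjoin (hx.trans N)] at h1
  rw [h1, h.finsum_orb hPT hx]
  push_cast
  rw [h.sum_chi hPT hx]
  ring

theorem Cx_le_up (hx : Tower A x) (k j : ℕ) : Cx x (N + k) ≤ Cx x (N + k + j) :=
  hx.le (N + k) j

theorem GS.up (hPT : PTFacts Ω) (hA : 2 ≤ rdeg A) (hx : Tower A x) (hxR : ∀ n, x n ∈ R)
    (h : GS x R N K) (k : ℕ) : GS x R (N + k) (K ⊔ Cx x (N + k)) := by
  refine ⟨?_, le_sup_right, ?_, ?_, ?_⟩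
  · exact (FF.sup_adjoin (h.ff hx) (x (N + k))).1
  · refine sup_le h.leR ?_
    rw [adjoin_simple_le_iff]
    exact hxR _
  · intro g hg z hz
    have h1 : mapF g (K ⊔ Cx x (N + k)) = K ⊔ Cx x (N + k) := by
      have h2 : mapF g (K ⊔ Cx x (N + k)) = mapF g K ⊔ mapF g (Cx x (N + k)) :=
        IntermediateField.map_sup _ _ _
      rw [h2, h.mapF_eq (hg.mono (hx.le N k)), mapF_eq_of_fixes hg]
    rw [← h1]
    exact apply_mem_mapF.2 hz
  · intro j
    have h1 : K ⊔ Cx x (N + k) ⊔ Cx x (N + k + j) = K ⊔ Cx x (N + k + j) := by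
      rw [sup_assoc, sup_eq_right.2 (hx.le (N + k) j)]
    have h2 := h.stable k
    have h3 := h.stable (k + j)
    rw [Nat.cast_add, ← add_assoc] at h3
    rw [h1, h3, h2]

/-- pullback formula (tame lcm lemma) -/
theorem GS.orb_up (hPT : PTFacts Ω) (hA : 2 ≤ rdeg A) (hx : Tower A x) (hxR : ∀ n, x n ∈ R)
    (h : GS x R N K) (k : ℕ) (q : OnePoint ℂ) :
    locIter A k q * orb x (N + k) (K ⊔ Cx x (N + k)) q =
      Nat.lcm (orb x N K ((pmap A)^[k] q)) (locIter A k q) := by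
  obtain ⟨v, rfl⟩ := hPT.exists_val (hx.trans (N + k)) q
  have hA1 : 1 ≤ rdeg A := by omega
  have h1 := hPT.e_sup v (ff_adjoin (hx.trans N)) (h.ff hx) (ff_adjoin (hx.trans (N + k))) h.le
    (hx.le N k)
  have h2 : e v (Cx x N) (K ⊔ Cx x (N + k))
      = e v (Cx x N) (Cx x (N + k)) * e v (Cx x (N + k)) (K ⊔ Cx x (N + k)) :=
    e_mul v (hx.le N k) le_sup_right
  rw [← (h.up hPT hA hx hxR k).e_eq_orb hPT hx v, ← hx.e_eq hPT hA1 v N k, ← h2, h1,
    ← hx.val_eq hPT v N k, h.e_eq_orb hPT hx v]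

theorem GS.deg_pos (hPT : PTFacts Ω) (hx : Tower A x) (h : GS x R N K) :
    0 < (Cx x N).relfinrank K :=
  hPT.relfinrank_pos (ff_adjoin (hx.trans N)) (h.ff hx) h.le

/-- the support of the orbifold has at most `2 |G|` points -/
theorem GS.card_supp_le (hPT : PTFacts Ω) (hx : Tower A x) (h : GS x R N K) (hc : 0 ≤ chi K) :
    (h.orb_finite hPT hx).toFinset.card ≤ 2 * (Cx x N).relfinrank K := by
  have h1 := h.chi_eq hPT hx
  rw [h.finsum_orb hPT hx] at h1
  have hG := h.deg_pos hPT hx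
  have h2 : ∀ q ∈ (h.orb_finite hPT hx).toFinset,
      (1 : ℚ) ≤ (Cx x N).relfinrank K * (1 - 1 / (orb x N K q : ℚ)) := by
    intro q hq
    rw [Set.Finite.mem_toFinset] at hq
    have hq' : orb x N K q ≠ 1 := hq
    have h0 := h.orb_pos hPT hx q
    obtain ⟨c, hc⟩ := h.orb_dvd hPT hx q
    have hc0 : 0 < c := by
      rcases Nat.eq_zero_or_pos c with h3 | h3
      · rw [h3, mul_zero] at hc; omega
      · exact h3
    have h3 : (2 : ℚ) ≤ (orb x N K q : ℚ) := by
      have : 2 ≤ orb x N K q := by omega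
      exact_mod_cast this
    have h4 : (1 : ℚ) ≤ (c : ℚ) := by exact_mod_cast hc0
    have h5 : (orb x N K q : ℚ) ≠ 0 := by linarith
    rw [hc]
    push_cast
    have h6 : (orb x N K q : ℚ) * c * (1 - 1 / (orb x N K q : ℚ))
        = c * ((orb x N K q : ℚ) - 1) := by field_simp
    rw [h6]
    nlinarith
  have h3 := Finset.sum_le_sum h2
  rw [Finset.sum_const, nsmul_eq_mul, mul_one, ← Finset.mul_sum] at h3
  have h4 : (0 : ℚ) ≤ (chi K : ℚ) := by exact_mod_cast hc
  have h5 : (((h.orb_finite hPT hx).toFinset.card : ℕ) : ℚ)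
      ≤ ((2 * (Cx x N).relfinrank K : ℕ) : ℚ) := by
    push_cast
    nlinarith
  exact_mod_cast h5

/-- few bad points in the fibres of the iterates -/
theorem GS.bad_le (hPT : PTFacts Ω) (hA : 2 ≤ rdeg A) (hx : Tower A x)
    (hR : IsSmallField x R) (h : GS x R N K) (k : ℕ) (q : OnePoint ℂ) :
    {q' | (pmap A)^[k] q' = q ∧ ¬ orb x N K q ∣ locIter A k q'}.ncard ≤
      2 * (Cx x N).relfinrank K := by
  have hxR := hR.tower_mem hPT hA hx
  have h' := h.up hPT hA hx hxR k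
  have hc := hR.chi_nonneg hPT hA hx (h'.ff hx) h'.leR
  have h1 := h'.card_supp_le hPT hx hc
  rw [h.stable k] at h1
  refine le_trans ?_ h1
  rw [← Set.ncard_coe_finset]
  refine Set.ncard_le_ncard ?_ (Finset.finite_toSet _)
  rintro q' ⟨hq1, hq2⟩
  rw [Finset.mem_coe, Set.Finite.mem_toFinset]
  intro h3
  apply hq2
  have h4 := h.orb_up hPT hA hx hxR k q'
  rw [h3, mul_one, hq1] at h4
  rw [h4]
  exact Nat.dvd_lcm_left _ _

theorem GS.card_fibre_le (hPT : PTFacts Ω) (hA : 2 ≤ rdeg A) (hx : Tower A x)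
    (hR : IsSmallField x R) (h : GS x R N K) (k : ℕ) (q : OnePoint ℂ) :
    ((pmap A)^[k] ⁻¹' {q}).ncard * orb x N K q ≤
      2 * (Cx x N).relfinrank K * orb x N K q + rdeg A ^ k := by
  classical
  have hA1 : 1 ≤ rdeg A := by omega
  have hfin := iter_fibre_finite hPT hA1 k q
  have hsum := sum_iter_fibre hPT hA1 k q
  rw [finsum_mem_eq_finite_toFinset_sum _ hfin] at hsum
  have hbad := h.bad_le hPT hA hx hR k q
  rw [Set.ncard_eq_toFinset_card _ hfin]
  rw [← Finset.card_filter_add_card_filter_not (s := hfin.toFinset)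
    (fun q' => orb x N K q ∣ locIter A k q'), add_mul, add_comm]
  refine add_le_add ?_ ?_
  · refine Nat.mul_le_mul_right _ ?_
    refine le_trans (le_of_eq ?_) hbad
    rw [← Set.ncard_coe_finset]
    congr 1
    ext q'
    rw [Finset.mem_coe, Finset.mem_filter, Set.Finite.mem_toFinset]
    exact Iff.rfl
  · have h1 : ∑ q' ∈ hfin.toFinset.filter (fun q' => orb x N K q ∣ locIter A k q'),
        orb x N K q ≤ ∑ q' ∈ hfin.toFinset.filter (fun q' => orb x N K q ∣ locIter A k q'),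
        locIter A k q' := by
      refine Finset.sum_le_sum fun q' hq' => ?_
      rw [Finset.mem_filter] at hq'
      exact Nat.le_of_dvd (locIter_pos hPT hA1 k q') hq'.2
    rw [Finset.sum_const, smul_eq_mul] at h1
    refine h1.trans ?_
    rw [← hsum]
    exact Finset.sum_le_sum_of_subset (Finset.filter_subset _ _)

theorem locIter_le (hPT : PTFacts Ω) (hA : 1 ≤ rdeg A) (k : ℕ) (q : OnePoint ℂ) :
    locIter A k q ≤ rdeg A ^ k := by
  have hfin := iter_fibre_finite hPT hA k ((pmap A)^[k] q)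
  have hsum := sum_iter_fibre hPT hA k ((pmap A)^[k] q)
  rw [finsum_mem_eq_finite_toFinset_sum _ hfin] at hsum
  rw [← hsum]
  refine Finset.single_le_sum (f := locIter A k) (fun _ _ => Nat.zero_le _) ?_
  rw [Set.Finite.mem_toFinset]
  rfl

/-- Lemma 8 -/
theorem GS.orb_le (hPT : PTFacts Ω) (hA : 2 ≤ rdeg A) (hx : Tower A x)
    (hR : IsSmallField x R) (hE : NoExc A)
    (hpos : ∀ L : IntermediateField ℂ Ω, FF L → L ≤ R → 0 < chi L) (h : GS x R N K)
    (q : OnePoint ℂ) : orb x N K q ≤ 2 * rdeg A ^ 4 := by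
  classical
  by_contra hcon
  push Not at hcon
  have hA1 : 1 ≤ rdeg A := by omega
  have hxR := hR.tower_mem hPT hA hx
  have key : ∀ k ≤ 4, ((pmap A)^[k] ⁻¹' {q}).ncard ≤ 2 := by
    intro k hk
    have h' := h.up hPT hA hx hxR k
    have hc := hpos _ (h'.ff hx) h'.leR
    have h1 := h'.chi_eq hPT hx
    rw [h'.finsum_orb hPT hx] at h1
    have hG := h'.deg_pos hPT hx
    have hfin := iter_fibre_finite hPT hA1 k q
    -- every point of the fibre has `orb ≥ 3`
    have h3 : ∀ q' ∈ hfin.toFinset, 3 ≤ orb x (N + k) (K ⊔ Cx x (N + k)) q' := by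
      intro q' hq'
      rw [Set.Finite.mem_toFinset] at hq'
      have hq1 : (pmap A)^[k] q' = q := hq'
      have h4 := h.orb_up hPT hA hx hxR k q'
      rw [hq1] at h4
      have h5 := locIter_pos hPT hA1 k q'
      have h6 := locIter_le hPT hA1 k q'
      have h7 : rdeg A ^ k ≤ rdeg A ^ 4 := Nat.pow_le_pow_right (by omega) hk
      have h8 : orb x N K q ≤ Nat.lcm (orb x N K q) (locIter A k q') :=
        Nat.le_of_dvd (Nat.lcm_pos (h.orb_pos hPT hx q) h5) (Nat.dvd_lcm_left _ _)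
      by_contra h9
      have h10 : orb x (N + k) (K ⊔ Cx x (N + k)) q' ≤ 2 := by omega
      have h11 : locIter A k q' * orb x (N + k) (K ⊔ Cx x (N + k)) q' ≤ locIter A k q' * 2 :=
        Nat.mul_le_mul_left _ h10
      omega
    have hsub : hfin.toFinset ⊆ (h'.orb_finite hPT hx).toFinset := by
      intro q' hq'
      rw [Set.Finite.mem_toFinset]
      have := h3 q' hq'
      intro h4
      omega
    have h4 : ∀ q' ∈ hfin.toFinset,
        (2 / 3 : ℚ) ≤ 1 - 1 / (orb x (N + k) (K ⊔ Cx x (N + k)) q' : ℚ) := by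
      intro q' hq'
      have h5 : (3 : ℚ) ≤ (orb x (N + k) (K ⊔ Cx x (N + k)) q' : ℚ) := by
        exact_mod_cast h3 q' hq'
      have h6 : 1 / (orb x (N + k) (K ⊔ Cx x (N + k)) q' : ℚ) ≤ 1 / 3 :=
        one_div_le_one_div_of_le (by norm_num) h5
      linarith
    have h5 := Finset.sum_le_sum h4
    rw [Finset.sum_const, nsmul_eq_mul] at h5
    have h6 : ∑ q' ∈ hfin.toFinset, (1 - 1 / (orb x (N + k) (K ⊔ Cx x (N + k)) q' : ℚ))
        ≤ ∑ q' ∈ (h'.orb_finite hPT hx).toFinset,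
          (1 - 1 / (orb x (N + k) (K ⊔ Cx x (N + k)) q' : ℚ)) := by
      refine Finset.sum_le_sum_of_subset_of_nonneg hsub fun q' _ _ => ?_
      have h7 : (1 : ℚ) ≤ (orb x (N + k) (K ⊔ Cx x (N + k)) q' : ℚ) := by
        exact_mod_cast h'.orb_pos hPT hx q'
      have h8 : 1 / (orb x (N + k) (K ⊔ Cx x (N + k)) q' : ℚ) ≤ 1 := by
        rw [div_le_one (by linarith)]; exact h7
      linarith
    have h7 : (0 : ℚ) < (chi (K ⊔ Cx x (N + k)) : ℚ) := by exact_mod_cast hc
    rw [h1] at h7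
    have h8 : (0 : ℚ) < ((Cx x (N + k)).relfinrank (K ⊔ Cx x (N + k)) : ℚ) := by
      exact_mod_cast hG
    have h9 := (mul_pos_iff_of_pos_left h8).1 h7
    have h10 : ((hfin.toFinset.card : ℕ) : ℚ) < ((3 : ℕ) : ℚ) := by
      push_cast
      linarith
    have h11 : hfin.toFinset.card < 3 := by exact_mod_cast h10
    rw [Set.ncard_eq_toFinset_card _ hfin]
    omega
  obtain ⟨T, hT1, hT2, hT3⟩ := exc_of_small_fibres hPT hA key
  exact hE T hT1 ⟨q, hT2⟩ hT3

theorem GS.map_shift (hPT : PTFacts Ω) (hA : 2 ≤ rdeg A) (hx : Tower A x)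
    (hR : IsSmallField x R) (h : GS x R N K) {σ : Ω ≃ₐ[ℂ] Ω} (hσ : ∀ n, σ (x n) = x (n + 1)) :
    GS x R (N + 1) (mapF σ K) ∧ ∀ q, orb x (N + 1) (mapF σ K) q = orb x N K q := by
  have hC : ∀ n, mapF σ (Cx x n) = Cx x (n + 1) := by
    intro n
    rw [mapF, Cx, adjoin_map, Set.image_singleton]
    have : (σ : Ω →ₐ[ℂ] Ω) (x n) = x (n + 1) := hσ n
    rw [this]
  have hle : Cx x (N + 1) ≤ mapF σ K := by
    rw [← hC]
    exact map_mono _ h.le
  have hRσ := hR.map_shift hPT hA hx hσ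
  have hGS : GS x R (N + 1) (mapF σ K) := by
    refine ⟨?_, hle, ?_, ?_, ?_⟩
    · exact (FF.map (h.ff hx) σ).1
    · rw [← hRσ]
      exact map_mono _ h.leR
    · intro g hg z hz
      rw [mem_mapF] at hz ⊢
      have hf : Fixes (σ⁻¹ * g * σ) (Cx x N) := by
        rw [← fixes_mapF, hC]
        exact hg
      have h1 := h.gal _ hf _ hz
      have h2 : (σ⁻¹ * g * σ) (σ.symm z) = σ.symm (g z) := by
        change σ.symm (g (σ (σ.symm z))) = σ.symm (g z)
        rw [σ.apply_symm_apply]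
      rwa [h2] at h1
    · intro k
      have h1 := h.stable k
      have h2 : Cx x (N + 1 + k) = mapF σ (Cx x (N + k)) := by
        rw [hC, show N + 1 + (k : ℤ) = N + k + 1 by ring]
      have h3 : mapF σ K ⊔ mapF σ (Cx x (N + k)) = mapF σ (K ⊔ Cx x (N + k)) :=
        (IntermediateField.map_sup _ _ _).symm
      rw [h2, h3, ← hC N]
      rw [relfinrank_map_map, relfinrank_map_map]
      exact h1
  refine ⟨hGS, fun q => ?_⟩
  obtain ⟨v, rfl⟩ := hPT.exists_val (hx.trans N) q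
  have h1 : val (σ • v) (x (N + 1)) = val v (x N) := by
    rw [← hσ N, hPT.val_smul]
  rw [← h1, ← hGS.e_eq_orb hPT hx (σ • v), h1, ← h.e_eq_orb hPT hx v, ← hC N, e_smul]

end GSF

end Pool.Agent.Helper63.Pak
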