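import Pool.Agent.Helper42.Pak.PC2
import Pool.Agent.Helper30.Pak.L1
import Pool.Agent.Helper91.Pak.GSF

set_option autoImplicit false

/-! Periodic critical point, first half: a function semi-invariant under the group `AA`. -/

namespace Pool.Agent.Helper63.Pak

open IntermediateField

namespace PC1

variable {Ω : Type} [Field Ω] [Algebra ℂ Ω]

theorem FG.le_of_exhaust {E : ℤ → IntermediateField ℂ Ω} (hmono : ∀ N, E N ≤ E (N + 1))
    {R K : IntermediateField ℂ Ω} (hex : ∀ z ∈ R, ∃ N, z ∈ E N) (hK : K.FG) (hKR : K ≤ R)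
    (M : ℤ) : ∃ N : ℤ, M ≤ N ∧ K ≤ E N := by
  classical
  have hm : ∀ (N : ℤ) (k : ℕ), E N ≤ E (N + k) := by
    intro N k
    induction k with
    | zero => simp
    | succ k ih =>
      refine ih.trans ?_
      have := hmono (N + k)
      rw [Nat.cast_succ, ← add_assoc]
      exact this
  have hm' : ∀ {a b : ℤ}, a ≤ b → E a ≤ E b := by
    intro a b hab
    have := hm a (b - a).toNat
    rwa [show a + ((b - a).toNat : ℤ) = b by omega] at this
  obtain ⟨S, rfl⟩ := hK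
  have key : ∀ T : Finset Ω, (T : Set Ω) ⊆ S → ∃ N : ℤ, M ≤ N ∧ ∀ z ∈ T, z ∈ E N := by
    intro T
    induction T using Finset.induction_on with
    | empty => intro _; exact ⟨M, le_rfl, fun z hz => absurd hz (Finset.notMem_empty z)⟩
    | insert z T _ ih =>
      intro hT
      rw [Finset.coe_insert, Set.insert_subset_iff] at hT
      obtain ⟨N, hN1, hN2⟩ := ih hT.2
      obtain ⟨N', hN'⟩ := hex z (hKR (subset_adjoin _ _ hT.1))
      refine ⟨max N N', hN1.trans (le_max_left _ _), ?_⟩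
      intro w hw
      rcases Finset.mem_insert.1 hw with rfl | hw
      · exact hm' (le_max_right _ _) hN'
      · exact hm' (le_max_left _ _) (hN2 w hw)
  obtain ⟨N, hN1, hN2⟩ := key S le_rfl
  exact ⟨N, hN1, adjoin_le_iff.2 fun z hz => hN2 z hz⟩

theorem mem_range_of_not_transcendental {z : Ω} (h : ¬ Transcendental ℂ z) :
    ∃ c : ℂ, algebraMap ℂ Ω c = z := by
  have h1 : IsIntegral ℂ z := by
    have h2 : IsAlgebraic ℂ z := by
      by_contra h3; exact h h3
    exact h2.isIntegral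
  have h3 := IsAlgClosed.degree_eq_one_of_irreducible ℂ (minpoly.irreducible h1)
  exact minpoly.mem_range_of_degree_eq_one ℂ z h3

variable [CurveUniverse Ω]
variable {A : RatFunc ℂ} {x : ℤ → Ω} {R : IntermediateField ℂ Ω}

/-- a function without zeros and poles is constant -/
theorem const_of_ordAt (hPT : PTFacts Ω) {K : IntermediateField ℂ Ω} (hK : FF K) {z : Ω}
    (hz : z ∈ K) (h : ∀ v, ordAt v K z = 0) : ∃ c : ℂ, algebraMap ℂ Ω c = z := by
  by_contra hcon
  have ht : Transcendental ℂ z := by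
    by_contra h1
    exact hcon (mem_range_of_not_transcendental h1)
  obtain ⟨v, hv⟩ := hPT.exists_val ht ((0 : ℂ) : OnePoint ℂ)
  have h1 := h v
  unfold ordAt at h1
  rw [if_pos hv] at h1
  have h2 : 0 < e v ℂ⟮z⟯ K := hPT.e_pos v (ff_adjoin ht) hK (by
    rw [adjoin_simple_le_iff]; exact hz)
  omega

theorem iterate_fixed {a : OnePoint ℂ} (ha : pmap A a = a) (n : ℕ) : (pmap A)^[n] a = a :=
  Function.iterate_fixed ha n

theorem locIter_add (m n : ℕ) (q : OnePoint ℂ) :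
    locIter A (m + n) q = locIter A m q * locIter A n ((pmap A)^[m] q) := by
  unfold locIter
  rw [Finset.prod_range_add]
  congr 1
  refine Finset.prod_congr rfl fun i _ => ?_
  rw [← Function.iterate_add_apply, add_comm]

theorem locIter_fixed {a : OnePoint ℂ} (ha : pmap A a = a) (n : ℕ) :
    locIter A n a = locDeg A a ^ n := by
  unfold locIter
  rw [Finset.prod_congr rfl (fun i _ => by rw [iterate_fixed ha i]), Finset.prod_const,
    Finset.card_range]

theorem locIter_one (q : OnePoint ℂ) : locIter A 1 q = locDeg A q := by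
  unfold locIter
  simp

/-- the points `v` with `x_{-k} (v) = a` and `e_v (R / ℂ(x_{-k})) ≥ δ ^ (k + t)` -/
def ZZ (x : ℤ → Ω) (R : IntermediateField ℂ Ω) (a : OnePoint ℂ) (δ t k : ℕ) (v : Pt Ω) : Prop :=
  val v (x (-(k : ℤ))) = a ∧ ∃ K : IntermediateField ℂ Ω, FF K ∧ Cx x (-(k : ℤ)) ≤ K ∧ K ≤ R ∧
    δ ^ (k + t) ≤ e v (Cx x (-(k : ℤ))) K

variable {a : OnePoint ℂ} {t k : ℕ} {v : Pt Ω}

theorem ZZ.succ (hPT : PTFacts Ω) (hA : 1 ≤ rdeg A) (hx : Tower A x) (ha : pmap A a = a)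
    (h : ZZ x R a (locDeg A a) t k v) : ZZ x R a (locDeg A a) t (k + 1) v := by
  obtain ⟨h1, K, hK, hle, hKR, he⟩ := h
  have e0 : -((k + 1 : ℕ) : ℤ) + ((1 : ℕ) : ℤ) = -(k : ℤ) := by push_cast; ring
  have h2 := hx.val_eq hPT v (-((k + 1 : ℕ) : ℤ)) 1
  rw [e0, h1, iterate_fixed ha] at h2
  have hle2 : Cx x (-((k + 1 : ℕ) : ℤ)) ≤ Cx x (-(k : ℤ)) := hx.le' (by push_cast; linarith)
  refine ⟨h2, K, hK, hle2.trans hle, hKR, ?_⟩
  rw [e_mul v hle2 hle]
  have h3 := hx.e_eq hPT hA v (-((k + 1 : ℕ) : ℤ)) 1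
  rw [e0, h1, locIter_one] at h3
  rw [h3, show k + 1 + t = (k + t) + 1 by ring, pow_succ, mul_comm]
  exact Nat.mul_le_mul_left _ he

theorem ZZ.add (hPT : PTFacts Ω) (hA : 1 ≤ rdeg A) (hx : Tower A x) (ha : pmap A a = a)
    (h : ZZ x R a (locDeg A a) t k v) (j : ℕ) : ZZ x R a (locDeg A a) t (k + j) v := by
  induction j with
  | zero => exact h
  | succ j ih => exact ih.succ hPT hA hx ha

theorem ZZ.smul (hPT : PTFacts Ω) (hA : 1 ≤ rdeg A) (hx : Tower A x) (ha : pmap A a = a)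
    {g : Ω ≃ₐ[ℂ] Ω} (hgR : mapF g R = R) {k₀ : ℕ} (hg : g (x (-(k₀ : ℤ))) = x (-(k₀ : ℤ)))
    (h : ZZ x R a (locDeg A a) t k v) : ∃ k', ZZ x R a (locDeg A a) t k' (g • v) := by
  refine ⟨k + k₀, ?_⟩
  obtain ⟨h1, K, hK, hle, hKR, he⟩ := h.add hPT hA hx ha k₀
  have hgk : g (x (-((k + k₀ : ℕ) : ℤ))) = x (-((k + k₀ : ℕ) : ℤ)) :=
    (hx.map g).eq_of_le hx hg (by push_cast; linarith)
  have hC : mapF g (Cx x (-((k + k₀ : ℕ) : ℤ))) = Cx x (-((k + k₀ : ℕ) : ℤ)) := by
    rw [mapF, Cx, adjoin_map, Set.image_singleton]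
    have : (g : Ω →ₐ[ℂ] Ω) (x (-((k + k₀ : ℕ) : ℤ))) = x (-((k + k₀ : ℕ) : ℤ)) := hgk
    rw [this]
  refine ⟨?_, mapF g K, FF.map hK g, ?_, ?_, ?_⟩
  · rw [← hgk, hPT.val_smul, h1]
  · rw [← hC]; exact map_mono _ hle
  · rw [← hgR]; exact map_mono _ hKR
  · have h2 := e_smul g v (Cx x (-((k + k₀ : ℕ) : ℤ))) K
    rw [hC] at h2
    rw [h2]
    exact he

theorem ZZ.smul_iff (hPT : PTFacts Ω) (hA : 1 ≤ rdeg A) (hx : Tower A x) (ha : pmap A a = a)
    {g : Ω ≃ₐ[ℂ] Ω} (hgR : mapF g R = R) {k₀ : ℕ} (hg : g (x (-(k₀ : ℤ))) = x (-(k₀ : ℤ))) :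
    (∃ k, ZZ x R a (locDeg A a) t k (g⁻¹ • v)) ↔ ∃ k, ZZ x R a (locDeg A a) t k v := by
  constructor
  · rintro ⟨k, h⟩
    have := h.smul hPT hA hx ha hgR hg
    rwa [smul_inv_smul] at this
  · rintro ⟨k, h⟩
    have hgR' : mapF g⁻¹ R = R := by
      ext z
      rw [mem_mapF]
      have h1 : (g⁻¹).symm z = g z := rfl
      rw [h1]
      conv_lhs => rw [← hgR]
      rw [apply_mem_mapF]
    have hg' : g⁻¹ (x (-(k₀ : ℤ))) = x (-(k₀ : ℤ)) := by
      change g.symm (x (-(k₀ : ℤ))) = x (-(k₀ : ℤ))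
      rw [AlgEquiv.symm_apply_eq, hg]
    exact h.smul hPT hA hx ha hgR' hg'

theorem ZZ.shift_iff (hPT : PTFacts Ω) {σ : Ω ≃ₐ[ℂ] Ω} (hσ : ∀ n, σ (x n) = x (n + 1))
    (hσR : mapF σ R = R) {δ : ℕ} :
    ZZ x R a δ (t + 1) k v ↔ ZZ x R a δ t (k + 1) (σ⁻¹ • v) := by
  have hC : ∀ n, mapF σ (Cx x n) = Cx x (n + 1) := by
    intro n
    rw [mapF, Cx, adjoin_map, Set.image_singleton]
    have : (σ : Ω →ₐ[ℂ] Ω) (x n) = x (n + 1) := hσ n
    rw [this]
  have e0 : -((k + 1 : ℕ) : ℤ) + 1 = -(k : ℤ) := by push_cast; ring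
  have hval : val (σ⁻¹ • v) (x (-((k + 1 : ℕ) : ℤ))) = val v (x (-(k : ℤ))) := by
    rw [← e0, ← hσ]
    conv_rhs => rw [← smul_inv_smul σ v]
    rw [hPT.val_smul]
  have hCk : mapF σ (Cx x (-((k + 1 : ℕ) : ℤ))) = Cx x (-(k : ℤ)) := by rw [hC, e0]
  have hinv : ∀ L : IntermediateField ℂ Ω, mapF σ (mapF σ⁻¹ L) = L := by
    intro L
    ext z
    rw [mem_mapF, mem_mapF]
    change σ (σ.symm z) ∈ L ↔ z ∈ L
    rw [σ.apply_symm_apply]
  have hinj : ∀ {L L' : IntermediateField ℂ Ω}, mapF σ L ≤ mapF σ L' ↔ L ≤ L' := by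
    intro L L'
    constructor
    · intro h z hz
      exact apply_mem_mapF.1 (h (apply_mem_mapF.2 hz))
    · intro h
      exact map_mono _ h
  constructor
  · rintro ⟨h1, K, hK, hle, hKR, he⟩
    refine ⟨by rw [hval, h1], mapF σ⁻¹ K, FF.map hK _, ?_, ?_, ?_⟩
    · rw [← hinj, hinv, hCk]; exact hle
    · rw [← hinj, hinv, hσR]; exact hKR
    · have h2 := e_smul σ (σ⁻¹ • v) (Cx x (-((k + 1 : ℕ) : ℤ))) (mapF σ⁻¹ K)
      rw [hinv, hCk, smul_inv_smul] at h2
      rw [← h2, show k + 1 + t = k + (t + 1) by ring]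
      exact he
  · rintro ⟨h1, K, hK, hle, hKR, he⟩
    refine ⟨by rw [← hval, h1], mapF σ K, FF.map hK _, ?_, ?_, ?_⟩
    · rw [← hCk, hinj]; exact hle
    · rw [← hσR, hinj]; exact hKR
    · have h2 := e_smul σ (σ⁻¹ • v) (Cx x (-((k + 1 : ℕ) : ℤ))) K
      rw [hCk, smul_inv_smul] at h2
      rw [h2, show k + (t + 1) = k + 1 + t by ring]
      exact he

variable {σ : Ω ≃ₐ[ℂ] Ω} {E : ℤ → IntermediateField ℂ Ω} {nu : OnePoint ℂ → ℕ} {Mn : ℕ}

omit [CurveUniverse Ω] in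
theorem EFam.mono (hF : EFam x R σ E nu Mn) (N : ℤ) : E N ≤ E (N + 1) := by
  rw [hF.succ]; exact le_sup_left

omit [CurveUniverse Ω] in
theorem EFam.ff (hx : Tower A x) (hF : EFam x R σ E nu Mn) (N : ℤ) : FF (E N) := by
  refine ⟨hF.fg N, fun hK => ?_⟩
  have h1 : x N ∈ E N := hF.le N (mem_adjoin_simple_self ℂ (x N))
  rw [hK, IntermediateField.mem_bot] at h1
  obtain ⟨c, hc⟩ := h1
  have h2 := hx.trans N
  rw [← hc] at h2
  exact h2 (isAlgebraic_algebraMap c)

/-- no ramification at a non-critical point -/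
theorem EFam.e_succ (hPT : PTFacts Ω) (hA : 1 ≤ rdeg A) (hx : Tower A x)
    (hF : EFam x R σ E nu Mn) (v : Pt Ω) (N : ℤ) (h : locDeg A (val v (x (N + 1))) = 1) {n : ℤ}
    (hn : n ≤ N) : e v (Cx x n) (E (N + 1)) = e v (Cx x n) (E N) := by
  have h1 : e v (Cx x N) (E (N + 1)) = e v (Cx x N) (E N) := by
    rw [hF.succ]
    have h2 := hPT.e_sup v (hx.ff N) (EFam.ff hx hF N) (hx.ff (N + 1)) (hF.le N)
      (hx.le' (by linarith : N ≤ N + 1))
    have h3 := hx.e_eq hPT hA v N 1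
    rw [Nat.cast_one, locIter_one, h] at h3
    rw [h2, h3, Nat.lcm_one_right]
  rw [e_mul v (hx.le' hn) (hF.le N), e_mul v (hx.le' hn) ((hF.le N).trans (EFam.mono hF N)), h1]

theorem EFam.e_add (hPT : PTFacts Ω) (hA : 1 ≤ rdeg A) (hx : Tower A x)
    (hF : EFam x R σ E nu Mn) (v : Pt Ω) (M : ℤ)
    (h : ∀ N : ℤ, M ≤ N → locDeg A (val v (x (N + 1))) = 1) {n : ℤ}
    (hn : n ≤ M) (j : ℕ) : e v (Cx x n) (E (M + j)) = e v (Cx x n) (E M) := by
  induction j with
  | zero => simp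
  | succ j ih =>
    rw [Nat.cast_succ, ← add_assoc, EFam.e_succ hPT hA hx hF v (M + j) (h _ (by linarith))
      (by linarith), ih]

/-- the finite set `S` describing `Z` -/
def SS (A : RatFunc ℂ) (a : OnePoint ℂ) (nu : OnePoint ℂ → ℕ) (M : ℕ) : Set (OnePoint ℂ) :=
  {p | (pmap A)^[M] p = a ∨
    ∃ k, (pmap A)^[M + k] p = a ∧ locDeg A a ^ k ≤ locIter A (M + k) p * nu p}

/-- `M` bounds the entry times of the critical points -/
def EntryBound (A : RatFunc ℂ) (a : OnePoint ℂ) (M : ℕ) : Prop :=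
  ∀ c, locDeg A c ≠ 1 → (∃ n : ℕ, (pmap A)^[n] c = a) → (pmap A)^[M] c = a

theorem exists_entryBound (hPT : PTFacts Ω) (hA : 1 ≤ rdeg A) (ha : pmap A a = a) :
    ∃ M, EntryBound A a M := by
  classical
  have hfin := crit_finite hPT hA
  have key : ∀ T : Finset (OnePoint ℂ), ∃ M : ℕ, ∀ c ∈ T,
      (∃ n : ℕ, (pmap A)^[n] c = a) → (pmap A)^[M] c = a := by
    intro T
    induction T using Finset.induction_on with
    | empty => exact ⟨0, fun c hc => absurd hc (Finset.notMem_empty c)⟩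
    | insert c T _ ih =>
      obtain ⟨M, hM⟩ := ih
      by_cases hc : ∃ n : ℕ, (pmap A)^[n] c = a
      · obtain ⟨n, hn⟩ := hc
        refine ⟨n + M, fun c' hc' hex => ?_⟩
        rcases Finset.mem_insert.1 hc' with rfl | hc'
        · rw [add_comm, Function.iterate_add_apply, hn, iterate_fixed ha]
        · rw [Function.iterate_add_apply, hM c' hc' hex, iterate_fixed ha]
      · refine ⟨M, fun c' hc' hex => ?_⟩
        rcases Finset.mem_insert.1 hc' with rfl | hc'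
        · exact absurd hex hc
        · exact hM c' hc' hex
  obtain ⟨M, hM⟩ := key hfin.toFinset
  exact ⟨M, fun c hc hex => hM c (by rw [Set.Finite.mem_toFinset]; exact hc) hex⟩

theorem iterate_of_le {M n : ℕ} (ha : pmap A a = a) {p : OnePoint ℂ} (h : (pmap A)^[M] p = a)
    (hn : M ≤ n) : (pmap A)^[n] p = a := by
  obtain ⟨j, rfl⟩ := Nat.exists_eq_add_of_le hn
  rw [add_comm, Function.iterate_add_apply, h, iterate_fixed ha]

theorem EntryBound.locDeg_eq {M : ℕ} (hM : EntryBound A a M) {p : OnePoint ℂ}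
    (h : (pmap A)^[M] p ≠ a) {n : ℕ} (hn : (pmap A)^[n] p = a) : locDeg A p = 1 := by
  by_contra hcon
  exact h (hM p hcon ⟨n, hn⟩)

/-- description of `Z` -/
theorem zz_iff (hPT : PTFacts Ω) (hA : 1 ≤ rdeg A) (hx : Tower A x)
    (hxR : ∀ n, x n ∈ R) (hF : EFam x R σ E nu Mn) (ha : pmap A a = a) {M : ℕ}
    (hM : EntryBound A a M) (v : Pt Ω) :
    (∃ k, ZZ x R a (locDeg A a) 0 k v) ↔ val v (x M) ∈ SS A a nu M := by
  have hval0 : val v (x 0) = (pmap A)^[M] (val v (x M)) := by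
    have := hx.val_eq hPT v 0 M
    rwa [zero_add] at this
  have hvalk : ∀ k : ℕ, val v (x (-(k : ℤ))) = (pmap A)^[M + k] (val v (x M)) := by
    intro k
    have := hx.val_eq hPT v (-(k : ℤ)) (M + k)
    rwa [show -(k : ℤ) + ((M + k : ℕ) : ℤ) = M by push_cast; ring] at this
  have hek : ∀ k : ℕ, e v (Cx x (-(k : ℤ))) (E M)
      = locIter A (M + k) (val v (x M)) * nu (val v (x M)) := by
    intro k
    have h1 := hx.e_eq hPT hA v (-(k : ℤ)) (M + k)
    rw [show -(k : ℤ) + ((M + k : ℕ) : ℤ) = M by push_cast; ring] at h1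
    rw [e_mul v (hx.le' (by omega : -(k : ℤ) ≤ M)) (hF.le M), h1, hF.nu_eq]
  constructor
  · rintro ⟨k, h1, K, hK, hle, hKR, he⟩
    by_cases h0 : (pmap A)^[M] (val v (x M)) = a
    · exact Or.inl h0
    · refine Or.inr ⟨k, ?_, ?_⟩
      · rw [← hvalk, h1]
      · obtain ⟨N, hN1, hN2⟩ := FG.le_of_exhaust (fun N => EFam.mono hF N) hF.exhaust hK.1 hKR M
        have h2 : e v (Cx x (-(k : ℤ))) K ≤ e v (Cx x (-(k : ℤ))) (E N) := by
          rw [e_mul v hle hN2]
          exact Nat.le_mul_of_pos_right _ (hPT.e_pos v hK (EFam.ff hx hF N) hN2)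
        have h3 : ∀ N' : ℤ, (M : ℤ) ≤ N' → locDeg A (val v (x (N' + 1))) = 1 := by
          intro N' hN'
          obtain ⟨j, hj⟩ : ∃ j : ℕ, N' = M + j := ⟨(N' - M).toNat, by omega⟩
          have h4 := hx.val_eq hPT v (j + 1 : ℕ) M
          have h5 := hx.val_eq hPT v 0 (j + 1)
          have h6 := hx.val_eq hPT v (-(k : ℤ)) (M + k + (j + 1))
          rw [show -(k : ℤ) + ((M + k + (j + 1) : ℕ) : ℤ) = N' + 1 by rw [hj]; push_cast; ring,
            h1] at h6
          rw [show ((j + 1 : ℕ) : ℤ) + (M : ℤ) = N' + 1 by rw [hj]; push_cast; ring] at h4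
          rw [zero_add] at h5
          refine hM.locDeg_eq (fun h7 => ?_) h6.symm
          apply h0
          rw [← hval0, h5, h4, h7, iterate_fixed ha]
        obtain ⟨j, hj⟩ : ∃ j : ℕ, N = M + j := ⟨(N - M).toNat, by omega⟩
        have h4 := EFam.e_add hPT hA hx hF v M h3 (n := -(k : ℤ)) (by omega) j
        rw [← hj] at h4
        rw [add_zero] at he
        rw [← hek, ← h4]
        exact he.trans h2
  · rintro (h0 | ⟨k, h1, h2⟩)
    · refine ⟨0, ?_, Cx x 0, hx.ff 0, ?_, ?_, ?_⟩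
      · rw [Nat.cast_zero, neg_zero, hval0, h0]
      · rw [Nat.cast_zero, neg_zero]
      · rw [adjoin_simple_le_iff]; exact hxR 0
      · rw [Nat.cast_zero, neg_zero, e_self]
        simp
    · refine ⟨k, ?_, E M, EFam.ff hx hF M, ?_, hF.leR M, ?_⟩
      · rw [hvalk, h1]
      · exact (hx.le' (by omega : -(k : ℤ) ≤ M)).trans (hF.le M)
      · rw [hek, add_zero]; exact h2

theorem locIter_noncrit {M : ℕ} (hM : EntryBound A a M) {p : OnePoint ℂ} {n k : ℕ}
    (h : ∀ i < k, (pmap A)^[M + i] p ≠ a) (hn : (pmap A)^[n] p = a) (hkn : k ≤ n) :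
    locIter A k p = 1 := by
  unfold locIter
  refine Finset.prod_eq_one fun i hi => ?_
  have hi' := Finset.mem_range.1 hi
  refine hM.locDeg_eq (n := n - i) ?_ ?_
  · rw [← Function.iterate_add_apply]
    exact h i hi'
  · rw [← Function.iterate_add_apply, Nat.sub_add_cancel (by omega)]
    exact hn

/-- the entry times of the points of `S` are bounded -/
theorem ss_bound (hPT : PTFacts Ω) (hA : 1 ≤ rdeg A) (ha : pmap A a = a)
    (hδ : 2 ≤ locDeg A a) {M : ℕ} (hM : EntryBound A a M) (hnu : ∀ q, nu q ≤ Mn)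
    {p : OnePoint ℂ} (hp : p ∈ SS A a nu M) :
    (pmap A)^[M + rdeg A ^ M * Mn] p = a := by
  rcases hp with h0 | ⟨k, h1, h2⟩
  · exact iterate_of_le ha h0 (Nat.le_add_right _ _)
  · classical
    have hex : ∃ k, (pmap A)^[M + k] p = a := ⟨k, h1⟩
    set k₀ := Nat.find hex with hk₀
    have h3 : (pmap A)^[M + k₀] p = a := Nat.find_spec hex
    have h4 : ∀ i < k₀, (pmap A)^[M + i] p ≠ a := fun i hi => Nat.find_min hex hi
    have h5 : k₀ ≤ k := Nat.find_min' hex h1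
    have h6 : locIter A (M + k) p = locIter A (M + k₀) p * locDeg A a ^ (k - k₀) := by
      rw [show M + k = (M + k₀) + (k - k₀) by omega, locIter_add, h3, locIter_fixed ha]
    have h7 : locIter A (M + k₀) p ≤ rdeg A ^ M := by
      rw [add_comm, locIter_add, locIter_noncrit hM h4 h3 (by omega), one_mul]
      exact locIter_le hPT hA M _
    have hδ0 : 0 < locDeg A a ^ (k - k₀) := by positivity
    have h8 : locDeg A a ^ k₀ ≤ rdeg A ^ M * Mn := by
      rw [h6] at h2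
      have h9 : locDeg A a ^ k = locDeg A a ^ k₀ * locDeg A a ^ (k - k₀) := by
        rw [← pow_add]; congr 1; omega
      rw [h9] at h2
      have h10 : locDeg A a ^ k₀ * locDeg A a ^ (k - k₀)
          ≤ (locIter A (M + k₀) p * nu p) * locDeg A a ^ (k - k₀) := by
        refine h2.trans (le_of_eq ?_)
        ring
      exact (Nat.le_of_mul_le_mul_right h10 hδ0).trans (Nat.mul_le_mul h7 (hnu p))
    have h9 : k₀ ≤ rdeg A ^ M * Mn := by
      refine le_trans ?_ h8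
      exact (Nat.lt_pow_self (by omega)).le
    exact iterate_of_le ha h3 (by omega)

theorem ss_finite (hPT : PTFacts Ω) (hA : 1 ≤ rdeg A) (ha : pmap A a = a)
    (hδ : 2 ≤ locDeg A a) {M : ℕ} (hM : EntryBound A a M) (hnu : ∀ q, nu q ≤ Mn) :
    (SS A a nu M).Finite :=
  (iter_fibre_finite hPT hA (M + rdeg A ^ M * Mn) a).subset fun _ hp =>
    ss_bound hPT hA ha hδ hM hnu hp

/-- existence of a function with given divisor -/
theorem exists_ordQ (hPT : PTFacts Ω) (T : Finset (OnePoint ℂ)) (D : OnePoint ℂ → ℤ)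
    (hD : ∀ p ∉ T, D p = 0) (hsum : ∑ p ∈ T, D p = 0) :
    ∃ Q : RatFunc ℂ, Q ≠ 0 ∧ ∀ p, ordQ Q p = D p := by
  classical
  have hzpow : ∀ (c : ℂ) (n : ℤ), LPiece.lin c ^ n ≠ 0 ∧
      ∀ p, ordQ (LPiece.lin c ^ n) p = n * ordQ (LPiece.lin c) p := by
    intro c n
    refine ⟨zpow_ne_zero _ (LPiece.lin_ne_zero c), fun p => ?_⟩
    obtain ⟨m, rfl | rfl⟩ := n.eq_nat_or_neg
    · rw [zpow_natCast, LPiece.ordQ_pow hPT (LPiece.lin_ne_zero c)]
    · rw [zpow_neg, zpow_natCast, LPiece.ordQ_inv hPT (pow_ne_zero _ (LPiece.lin_ne_zero c)),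
        LPiece.ordQ_pow hPT (LPiece.lin_ne_zero c)]
      ring
  set Tf : Finset ℂ := T.preimage (fun c : ℂ => (c : OnePoint ℂ))
    (OnePoint.coe_injective.injOn) with hTf
  have hTfm : ∀ c : ℂ, c ∈ Tf ↔ (c : OnePoint ℂ) ∈ T := fun c => by rw [hTf, Finset.mem_preimage]
  set Q : RatFunc ℂ := ∏ c ∈ Tf, LPiece.lin c ^ D (c : OnePoint ℂ) with hQ
  have hQord : ∀ p, ordQ Q p = ∑ c ∈ Tf, D (c : OnePoint ℂ) * ordQ (LPiece.lin c) p := by
    intro p
    rw [hQ, LPiece.ordQ_prod hPT _ _ (fun c _ => (hzpow c _).1)]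
    exact Finset.sum_congr rfl fun c _ => (hzpow c _).2 p
  refine ⟨Q, Finset.prod_ne_zero_iff.2 fun c _ => (hzpow c _).1, fun p => ?_⟩
  rw [hQord]
  cases p with
  | infty =>
    have h1 : ∑ c ∈ Tf, D (c : OnePoint ℂ) * ordQ (LPiece.lin c) OnePoint.infty
        = -∑ c ∈ Tf, D (c : OnePoint ℂ) := by
      rw [← Finset.sum_neg_distrib]
      refine Finset.sum_congr rfl fun c _ => ?_
      rw [LPiece.ordQ_lin_infty]; ring
    rw [h1]
    have h2 : ∑ p ∈ insert OnePoint.infty (Tf.image (fun c : ℂ => (c : OnePoint ℂ))), D p = 0 := by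
      rw [← hsum]
      symm
      refine Finset.sum_subset ?_ ?_
      · intro p hp
        cases p with
        | infty => exact Finset.mem_insert_self _ _
        | coe c =>
          refine Finset.mem_insert_of_mem (Finset.mem_image.2 ⟨c, ?_, rfl⟩)
          rw [hTfm]; exact hp
      · intro p _ hp
        exact hD p hp
    rw [Finset.sum_insert, Finset.sum_image] at h2
    · linarith
    · intro c _ c' _ h; exact OnePoint.coe_injective h
    · rw [Finset.mem_image]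
      rintro ⟨c, _, hc⟩
      exact OnePoint.coe_ne_infty c hc
  | coe z =>
    by_cases hz : z ∈ Tf
    · rw [Finset.sum_eq_single z]
      · rw [LPiece.ordQ_lin_self, mul_one]
      · intro c _ hc
        rw [LPiece.ordQ_lin_ne (Ne.symm hc), mul_zero]
      · intro h; exact absurd hz h
    · rw [hD _ (fun h => hz ((hTfm z).2 h))]
      refine Finset.sum_eq_zero fun c hc => ?_
      rw [LPiece.ordQ_lin_ne, mul_zero]
      rintro rfl
      exact hz hc

theorem locIter_succ' (m : ℕ) (q : OnePoint ℂ) :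
    locIter A (m + 1) q = locDeg A q * locIter A m (pmap A q) := by
  rw [add_comm, locIter_add, locIter_one, Function.iterate_one]

/-- the divisor -/
noncomputable def DD (A : RatFunc ℂ) (a : OnePoint ℂ) (S : Set (OnePoint ℂ)) (K : ℕ)
    (p : OnePoint ℂ) : ℤ := open Classical in
  (locIter A (K + 1) p : ℤ) * ((if pmap A p ∈ S then (locDeg A a : ℤ) else 0)
    - (if p ∈ S then (rdeg A : ℤ) else 0))

theorem sum_DD (hPT : PTFacts Ω) (hA : 1 ≤ rdeg A) {S : Set (OnePoint ℂ)}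
    (hS : S.Finite) (hSA : ∀ p ∈ S, pmap A p ∈ S) {K : ℕ} (hK : ∀ p ∈ S, (pmap A)^[K] p = a) :
    ∃ T : Finset (OnePoint ℂ), (∀ p ∉ T, DD A a S K p = 0) ∧ ∑ p ∈ T, DD A a S K p = 0 := by
  classical
  have hpre : (pmap A ⁻¹' S).Finite := by
    have h1 : (⋃ p ∈ S, pmap A ⁻¹' {p}).Finite := hS.biUnion fun p _ => fibre_finite hPT hA p
    refine h1.subset fun q hq => ?_
    rw [Set.mem_iUnion₂]
    exact ⟨pmap A q, hq, rfl⟩
  refine ⟨hpre.toFinset, ?_, ?_⟩
  · intro p hp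
    rw [Set.Finite.mem_toFinset] at hp
    unfold DD
    have hp' : pmap A p ∉ S := hp
    rw [if_neg hp', if_neg (fun h => hp' (hSA p h))]
    simp
  · have h1 : ∑ p ∈ hpre.toFinset, (locIter A (K + 1) p : ℤ)
        * (if pmap A p ∈ S then (locDeg A a : ℤ) else 0)
        = (rdeg A : ℤ) * locDeg A a * ∑ s ∈ hS.toFinset, (locIter A K s : ℤ) := by
      rw [← Finset.sum_fiberwise_of_maps_to (s := hpre.toFinset) (t := hS.toFinset)
        (g := pmap A) (fun p hp => by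
          rw [Set.Finite.mem_toFinset] at hp ⊢; exact hp), Finset.mul_sum]
      refine Finset.sum_congr rfl fun s hs => ?_
      rw [Set.Finite.mem_toFinset] at hs
      have h2 := sum_fibre hPT hA s
      rw [finsum_mem_eq_finite_toFinset_sum _ (fibre_finite hPT hA s)] at h2
      have h3 : hpre.toFinset.filter (fun p => pmap A p = s)
          = (fibre_finite hPT hA s).toFinset := by
        ext p
        rw [Finset.mem_filter, Set.Finite.mem_toFinset, Set.Finite.mem_toFinset]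
        constructor
        · rintro ⟨_, h⟩; exact h
        · intro h
          have h' : pmap A p = s := h
          exact ⟨by change pmap A p ∈ S; rw [h']; exact hs, h'⟩
      rw [h3, ← h2]
      push_cast
      rw [Finset.sum_mul, Finset.sum_mul]
      refine Finset.sum_congr rfl fun p hp => ?_
      rw [Set.Finite.mem_toFinset] at hp
      have hp' : pmap A p = s := hp
      rw [hp', if_pos hs, locIter_succ', hp']
      push_cast
      ring
    have h2 : ∑ p ∈ hpre.toFinset, (locIter A (K + 1) p : ℤ)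
        * (if p ∈ S then (rdeg A : ℤ) else 0)
        = (rdeg A : ℤ) * locDeg A a * ∑ s ∈ hS.toFinset, (locIter A K s : ℤ) := by
      have h3 : hS.toFinset ⊆ hpre.toFinset := by
        intro p hp
        rw [Set.Finite.mem_toFinset] at hp ⊢
        exact hSA p hp
      rw [← Finset.sum_subset h3]
      · rw [Finset.mul_sum]
        refine Finset.sum_congr rfl fun s hs => ?_
        rw [Set.Finite.mem_toFinset] at hs
        rw [if_pos hs, locIter_add, hK s hs, locIter_one]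
        push_cast
        ring
      · intro p _ hp
        rw [Set.Finite.mem_toFinset] at hp
        rw [if_neg hp, mul_zero]
    unfold DD
    simp only [mul_sub]
    rw [Finset.sum_sub_distrib, h1, h2, sub_self]

end PC1

open PC1

variable {Ω : Type} [Field Ω] [Algebra ℂ Ω] [CurveUniverse Ω]
variable {A : RatFunc ℂ} {x : ℤ → Ω} {R : IntermediateField ℂ Ω}

/-- First half of the case of a periodic critical point. -/
theorem periodic_first (hPT : PTFacts Ω) (hA : 2 ≤ rdeg A) (hx : Tower A x)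
    (hR : IsSmallField x R) (hE : NoExc A) {σ : Ω ≃ₐ[ℂ] Ω} (hσ : ∀ n, σ (x n) = x (n + 1))
    {E : ℤ → IntermediateField ℂ Ω} {nu : OnePoint ℂ → ℕ} {M : ℕ}
    (hF : EFam x R σ E nu M) {a : OnePoint ℂ} (ha : pmap A a = a) (hδ : 2 ≤ locDeg A a) :
    ∃ (m : ℤ) (Q : RatFunc ℂ), 1 ≤ rdeg Q ∧
      ∀ g : Ω ≃ₐ[ℂ] Ω, mapF g R = R → (∃ k : ℕ, g (x (-k)) = x (-k)) →
        ∃ c : ℂ, c ≠ 0 ∧ g (ev Q (x m)) = algebraMap ℂ Ω c * ev Q (x m) := by
  classical
  have hA1 : 1 ≤ rdeg A := by omega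
  have hxR := hR.tower_mem hPT hA hx
  have hσR : mapF σ R = R := hR.map_shift hPT hA hx hσ
  obtain ⟨M₀, hM₀⟩ := exists_entryBound hPT hA1 ha
  set S := SS A a nu M₀ with hS
  set K₀ : ℕ := M₀ + rdeg A ^ M₀ * M with hK₀
  have hSfin : S.Finite := ss_finite hPT hA1 ha hδ hM₀ hF.nu_le
  have hSK : ∀ p ∈ S, (pmap A)^[K₀] p = a := fun p hp => ss_bound hPT hA1 ha hδ hM₀ hF.nu_le hp
  set m : ℤ := M₀ + 1 with hm
  -- description of `Z` and `Z'`
  have hstep : ∀ v : Pt Ω, val v (x M₀) = pmap A (val v (x m)) := by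
    intro v
    have := hx.val_eq hPT v M₀ 1
    rwa [Function.iterate_one] at this
  have hZ : ∀ v : Pt Ω, (∃ k, ZZ x R a (locDeg A a) 0 k v) ↔ pmap A (val v (x m)) ∈ S := by
    intro v
    rw [zz_iff hPT hA1 hx hxR hF ha hM₀, hstep]
  have hZ' : ∀ v : Pt Ω, (∃ k, ZZ x R a (locDeg A a) 1 k v) ↔ val v (x m) ∈ S := by
    intro v
    have h1 : val (σ⁻¹ • v) (x M₀) = val v (x m) := by
      rw [hm, ← hσ]
      conv_rhs => rw [← smul_inv_smul σ v]
      rw [hPT.val_smul]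
    rw [← h1, ← zz_iff hPT hA1 hx hxR hF ha hM₀]
    constructor
    · rintro ⟨k, hk⟩
      exact ⟨k + 1, (ZZ.shift_iff hPT hσ hσR).1 hk⟩
    · rintro ⟨k, hk⟩
      exact ⟨k, (ZZ.shift_iff hPT hσ hσR).2 (hk.succ hPT hA1 hx ha)⟩
  have hZZ' : ∀ v : Pt Ω, (∃ k, ZZ x R a (locDeg A a) 1 k v) →
      ∃ k, ZZ x R a (locDeg A a) 0 k v := by
    rintro v ⟨k, h1, K, hK, hle, hKR, he⟩
    refine ⟨k, h1, K, hK, hle, hKR, le_trans ?_ he⟩
    exact Nat.pow_le_pow_right (by omega) (by omega)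
  have hSA : ∀ p ∈ S, pmap A p ∈ S := by
    intro p hp
    obtain ⟨v, rfl⟩ := hPT.exists_val (hx.trans m) p
    exact (hZ v).1 (hZZ' v ((hZ' v).2 hp))
  -- the function
  obtain ⟨T, hT1, hT2⟩ := sum_DD hPT hA1 hSfin hSA hSK
  obtain ⟨Q, hQ0, hQ⟩ := exists_ordQ hPT T (DD A a S K₀) hT1 hT2
  -- `Q` is not constant
  have hSne : S.Nonempty := ⟨a, Or.inl (iterate_fixed ha _)⟩
  have hne : pmap A ⁻¹' S ≠ S := hE S hSfin hSne
  obtain ⟨p₀, hp₁, hp₂⟩ : ∃ p, pmap A p ∈ S ∧ p ∉ S := by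
    by_contra hcon
    push Not at hcon
    exact hne (Set.Subset.antisymm hcon hSA)
  have hD0 : 0 < ordQ Q p₀ := by
    rw [hQ, DD, if_pos hp₁, if_neg hp₂, sub_zero]
    have h1 := locIter_pos hPT hA1 (K₀ + 1) p₀
    have h2 : 0 < locDeg A a := by omega
    positivity
  have hQ1 : 1 ≤ rdeg Q := by
    rw [rdeg_pos_iff]
    rintro c rfl
    have hc : c ≠ 0 := by
      rintro rfl
      exact hQ0 (map_zero _)
    rw [LPiece.ordQ_C hPT hc] at hD0
    exact lt_irrefl _ hD0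
  refine ⟨m, Q, hQ1, ?_⟩
  rintro g hgR ⟨k₀, hg⟩
  set x' : ℤ → Ω := fun n => g (x n) with hx'
  have hxt' : Tower A x' := hx.map g
  set f := ev Q (x m) with hf
  have hgf : g f = ev Q (x' m) := by rw [hf, ev_map]
  have hft : Transcendental ℂ f := transcendental_ev (hx.trans m) hQ1
  have hgft : Transcendental ℂ (g f) := by
    rw [hgf]; exact transcendental_ev (hxt'.trans m) hQ1
  have hf0 : f ≠ 0 := by
    intro h
    rw [h] at hft
    exact hft isAlgebraic_zero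
  have hgf0 : g f ≠ 0 := by
    intro h
    rw [h] at hgft
    exact hgft isAlgebraic_zero
  set K : IntermediateField ℂ Ω := Cx x m ⊔ Cx x' m with hKdef
  have hK : FF K := (hx.ff m).sup (hxt'.ff m)
  have hfC : f ∈ Cx x m := ev_mem (mem_adjoin_simple_self ℂ (x m))
  have hgfC : g f ∈ Cx x' m := by
    rw [hgf]; exact ev_mem (mem_adjoin_simple_self ℂ (x' m))
  have hfK : f ∈ K := le_sup_left (α := IntermediateField ℂ Ω) hfC
  have hgfK : g f ∈ K := le_sup_right (α := IntermediateField ℂ Ω) hgfC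
  -- orders
  have hord : ∀ v : Pt Ω, ordAt v K (g f) = ordAt v K f := by
    intro v
    set p := val v (x m) with hp
    set p' := val v (x' m) with hp'
    have ho1 : ordAt v K f = e v (Cx x m) K * DD A a S K₀ p := by
      rw [hPT.ordAt_eq v (hx.ff m) hK le_sup_left hfC hf0, hf, hPT.ordAt_ev v Q (hx.trans m) hQ0,
        hQ]
    have ho2 : ordAt v K (g f) = e v (Cx x' m) K * DD A a S K₀ p' := by
      rw [hPT.ordAt_eq v (hxt'.ff m) hK le_sup_right hgfC hgf0, hgf,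
        hPT.ordAt_ev v Q (hxt'.trans m) hQ0, hQ]
    have hpw : val (g⁻¹ • v) (x m) = p' := by
      rw [hp']
      change _ = val v (g (x m))
      conv_rhs => rw [← smul_inv_smul g v]
      rw [hPT.val_smul]
    have hi0 : pmap A p' ∈ S ↔ pmap A p ∈ S := by
      rw [← hpw, ← hZ, ← hZ, ZZ.smul_iff hPT hA1 hx ha hgR hg]
    have hi1 : p' ∈ S ↔ p ∈ S := by
      rw [← hpw, ← hZ', ← hZ', ZZ.smul_iff hPT hA1 hx ha hgR hg]
    rw [ho1, ho2]
    unfold DD
    simp only [hi0, hi1]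
    by_cases hpS : pmap A p ∈ S
    · -- both points are eventually mapped to `a`
      have hA2 : (pmap A)^[K₀ + 1] p = a := by
        rw [Function.iterate_succ_apply]; exact hSK _ hpS
      have hA3 : (pmap A)^[K₀ + 1] p' = a := by
        rw [Function.iterate_succ_apply]; exact hSK _ (hi0.2 hpS)
      -- a common level
      have key : ∀ (y : ℤ → Ω), Tower A y → (pmap A)^[K₀ + 1] (val v (y m)) = a →
          Cx y m ≤ K → Cx y (m - ((K₀ + 1 + k₀ : ℕ) : ℤ)) = Cx x (m - ((K₀ + 1 + k₀ : ℕ) : ℤ)) →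
          e v (Cx x (m - ((K₀ + 1 + k₀ : ℕ) : ℤ))) K
            = (locIter A (K₀ + 1) (val v (y m)) * locDeg A a ^ k₀) * e v (Cx y m) K := by
        intro y hy hya hyK hyC
        have h1 := hy.e_eq hPT hA1 v (m - ((K₀ + 1 + k₀ : ℕ) : ℤ)) (K₀ + 1 + k₀)
        rw [sub_add_cancel, locIter_add, hya, locIter_fixed ha] at h1
        rw [← hyC, e_mul v (hy.le' (by omega)) hyK, h1]
      have hgx : x' (m - ((K₀ + 1 + k₀ : ℕ) : ℤ)) = x (m - ((K₀ + 1 + k₀ : ℕ) : ℤ)) := by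
        refine hxt'.eq_of_le hx hg ?_
        rw [hm, hK₀]
        push_cast
        have : (0 : ℤ) ≤ (rdeg A : ℤ) ^ M₀ * M := by positivity
        linarith
      have h1 := key x hx hA2 le_sup_left rfl
      have h2 := key x' hxt' hA3 le_sup_right (by rw [Cx, hgx])
      rw [h1] at h2
      have hδ0 : 0 < locDeg A a ^ k₀ := by positivity
      have h3 : locIter A (K₀ + 1) p * e v (Cx x m) K = locIter A (K₀ + 1) p' * e v (Cx x' m) K := by
        refine Nat.eq_of_mul_eq_mul_left hδ0 ?_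
        calc locDeg A a ^ k₀ * (locIter A (K₀ + 1) p * e v (Cx x m) K)
            = locIter A (K₀ + 1) (val v (x m)) * locDeg A a ^ k₀ * e v (Cx x m) K := by
              rw [← hp]; ring
          _ = locIter A (K₀ + 1) (val v (x' m)) * locDeg A a ^ k₀ * e v (Cx x' m) K := h2
          _ = locDeg A a ^ k₀ * (locIter A (K₀ + 1) p' * e v (Cx x' m) K) := by
              rw [← hp']; ring
      have h4 : (locIter A (K₀ + 1) p : ℤ) * e v (Cx x m) K
          = locIter A (K₀ + 1) p' * e v (Cx x' m) K := by exact_mod_cast h3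
      linear_combination (-((if pmap A p ∈ S then (locDeg A a : ℤ) else 0)
        - (if p ∈ S then (rdeg A : ℤ) else 0))) * h4
    · have hpS' : p ∉ S := fun h => hpS (hSA p h)
      rw [if_neg hpS, if_neg hpS']
      simp
  -- the quotient is constant
  set z := g f / f with hz
  have hzK : z ∈ K := div_mem hgfK hfK
  have hz0 : z ≠ 0 := div_ne_zero hgf0 hf0
  have hzf : z * f = g f := div_mul_cancel₀ _ hf0
  have hzord : ∀ v, ordAt v K z = 0 := by
    intro v
    have h1 := hPT.ordAt_mul v hK hzK hfK hz0 hf0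
    rw [hzf, hord v] at h1
    linarith
  obtain ⟨c, hc⟩ := const_of_ordAt hPT hK hzK hzord
  refine ⟨c, ?_, ?_⟩
  · rintro rfl
    rw [map_zero] at hc
    exact hz0 hc.symm
  · rw [hc, hzf]

/-- The case of a periodic critical point. -/
theorem periodic_case (hPT : PTFacts Ω) (hA : 2 ≤ rdeg A) (hx : Tower A x)
    (hR : IsSmallField x R) (hpos : ∀ L : IntermediateField ℂ Ω, FF L → L ≤ R → 0 < chi L)
    (hE : NoExc A) {σ : Ω ≃ₐ[ℂ] Ω} (hσ : ∀ n, σ (x n) = x (n + 1)) {E : ℤ → IntermediateField ℂ Ω} {nu : OnePoint ℂ → ℕ} {M : ℕ}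
    (hF : EFam x R σ E nu M) {a : OnePoint ℂ} (ha : pmap A a = a) (hδ : 2 ≤ locDeg A a) :
    ∃ B : ℕ, ∀ j : ℕ,
      {w | ∃ g : Ω ≃ₐ[ℂ] Ω, g (x 0) = x 0 ∧ mapF g R = R ∧ g (x j) = w}.ncard ≤ B := by
  obtain ⟨m, Q, hQ, hg⟩ := periodic_first hPT hA hx hR hE hσ hF ha hδ
  exact periodic_second hPT hA hx hR hE hσ m Q hQ hg

end Pool.Agent.Helper63.Pak
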